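import Pool.Agent.W2helper22.SM.Stm

set_option autoImplicit false

/-!
# Project SM, piece SIM: simulation of one copy of an algorithm in the memory of many copies
-/

namespace Pool.Agent.W2helper86.SM

open Pool.Agent.W2helper22.SM

theorem eval_lt {W : ℕ} {ω : ℕ → ℕ → ℕ} {μ : Mem} (e : Expr) (h : e.ok W ω μ) :
    e.eval ω μ < W := by
  cases e with
  | lit n => exact h
  | reg x => exact h
  | bin o e f => exact h.2.2
  | get r i j => exact h.2.2
  | rnd i j => exact h.2.2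

theorem sim_cost (e : Expr) : e.sim.cost ≤ 7 * e.cost := by
  induction e with
  | lit n => simp [Expr.sim, Expr.cost]
  | reg x => simp [Expr.sim, Expr.cost]
  | bin o e f ihe ihf => simp only [Expr.sim, Expr.cost]; omega
  | get r i j ihi ihj => simp only [Expr.sim, Expr.cost]; omega
  | rnd i j ihi ihj => simp only [Expr.sim, Expr.cost]; omega

theorem sim_tcost (t : Test) : t.sim.cost ≤ 7 * t.cost := by
  induction t with
  | lt e f => have := sim_cost e; have := sim_cost f; simp only [Test.sim, Test.cost]; omega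
  | eq e f => have := sim_cost e; have := sim_cost f; simp only [Test.sim, Test.cost]; omega
  | not s ih => simp only [Test.sim, Test.cost]; omega
  | and s t ihs iht => simp only [Test.sim, Test.cost]; omega

/-- the numerical assumptions -/
structure Ctx (W W' L idx : ℕ) (ω ω' : ℕ → ℕ → ℕ) : Prop where
  hidx : idx < L
  h2 : 2 < W'
  hL : L < W'
  hW : 2 * W ≤ W'
  hWL : W * L + L ≤ W'
  hω : ∀ i < W, ∀ j < W, ω' (2 * i) (j * L + idx) = ω i j

variable {W W' L idx : ℕ} {ω ω' : ℕ → ℕ → ℕ}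

theorem Ctx.mul_add (C : Ctx W W' L idx ω ω') {j : ℕ} (hj : j < W) : j * L + idx < W' := by
  have h1 : (j + 1) * L ≤ W * L := Nat.mul_le_mul_right L hj
  have h2 := C.hidx
  have h3 := C.hWL
  have h4 : (j + 1) * L = j * L + L := by ring
  omega

theorem expr_sim (C : Ctx W W' L idx ω ω') {m μ : Mem} (h1 : m.v 1 = idx) (h2 : m.v 2 = L)
    (hI : Inst L idx m μ) (e : Expr) (hmx : e.mx < W') (hok : e.ok W ω μ) :
    e.sim.eval ω' m = e.eval ω μ ∧ e.sim.ok W' ω' m := by
  have hW := C.hW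
  have hL := C.hL
  have hidx := C.hidx
  induction e with
  | lit n =>
    have : n < W := hok
    exact ⟨rfl, show n < W' by omega⟩
  | reg x =>
    have h3 : μ.v x < W := hok
    have h4 : (Expr.reg x).sim.eval ω' m = μ.v x := by
      show m.a 10 x (m.v 1) = _
      rw [h1]
      exact hI.1 x
    refine ⟨h4, ?_, ?_, ?_⟩
    · exact hmx
    · show m.v 1 < W'
      omega
    · show m.a 10 x (m.v 1) < W'
      have : m.a 10 x (m.v 1) = μ.v x := h4
      omega
  | bin o e f ihe ihf =>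
    obtain ⟨a1, a2⟩ := ihe (lt_of_le_of_lt (le_max_left _ _) hmx) hok.1
    obtain ⟨b1, b2⟩ := ihf (lt_of_le_of_lt (le_max_right _ _) hmx) hok.2.1
    have h3 : (Expr.bin o e f).sim.eval ω' m = (Expr.bin o e f).eval ω μ := by
      show o.fn (e.sim.eval ω' m) (f.sim.eval ω' m) = o.fn (e.eval ω μ) (f.eval ω μ)
      rw [a1, b1]
    have h4 := eval_lt _ hok
    refine ⟨h3, a2, b2, ?_⟩
    show (Expr.bin o e f).sim.eval ω' m < W'
    omega
  | get r i j ihi ihj =>
    obtain ⟨a1, a2⟩ := ihi (lt_of_le_of_lt (le_max_left _ _) hmx) hok.1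
    obtain ⟨b1, b2⟩ := ihj (lt_of_le_of_lt (le_max_right _ _) hmx) hok.2.1
    have hi := eval_lt _ hok.1
    have hj := eval_lt _ hok.2.1
    have hjl := C.mul_add hj
    have h5 : (eAdd (eMul j.sim (.reg 2)) (.reg 1)).eval ω' m = j.eval ω μ * L + idx := by
      show j.sim.eval ω' m * m.v 2 + m.v 1 = _
      rw [b1, h1, h2]
    have h3 : (Expr.get r i j).sim.eval ω' m = (Expr.get r i j).eval ω μ := by
      show m.a (11 + r) (i.sim.eval ω' m) ((eAdd (eMul j.sim (.reg 2)) (.reg 1)).eval ω' m) = _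
      rw [h5, a1]
      exact hI.2 r _ _
    have h4 := eval_lt _ hok
    refine ⟨h3, a2, ⟨⟨b2, ?_, ?_⟩, ?_, ?_⟩, ?_⟩
    · show m.v 2 < W'
      omega
    · show j.sim.eval ω' m * m.v 2 < W'
      rw [b1, h2]
      omega
    · show m.v 1 < W'
      omega
    · show (eAdd (eMul j.sim (.reg 2)) (.reg 1)).eval ω' m < W'
      omega
    · show (Expr.get r i j).sim.eval ω' m < W'
      omega
  | rnd i j ihi ihj =>
    obtain ⟨a1, a2⟩ := ihi (lt_of_le_of_lt (le_max_left _ _) hmx) hok.1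
    obtain ⟨b1, b2⟩ := ihj (lt_of_le_of_lt (le_max_right _ _) hmx) hok.2.1
    have hi := eval_lt _ hok.1
    have hj := eval_lt _ hok.2.1
    have hjl := C.mul_add hj
    have h5 : (eAdd (eMul j.sim (.reg 2)) (.reg 1)).eval ω' m = j.eval ω μ * L + idx := by
      show j.sim.eval ω' m * m.v 2 + m.v 1 = _
      rw [b1, h1, h2]
    have h6 : (eMul (.lit 2) i.sim).eval ω' m = 2 * i.eval ω μ := by
      show 2 * i.sim.eval ω' m = _
      rw [a1]
    have h3 : (Expr.rnd i j).sim.eval ω' m = (Expr.rnd i j).eval ω μ := by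
      show ω' ((eMul (.lit 2) i.sim).eval ω' m)
        ((eAdd (eMul j.sim (.reg 2)) (.reg 1)).eval ω' m) = _
      rw [h5, h6]
      exact C.hω _ hi _ hj
    have h4 := eval_lt _ hok
    have h22 := C.h2
    refine ⟨h3, ⟨h22, a2, ?_⟩, ⟨⟨b2, ?_, ?_⟩, ?_, ?_⟩, ?_⟩
    · show (eMul (.lit 2) i.sim).eval ω' m < W'
      omega
    · show m.v 2 < W'
      omega
    · show j.sim.eval ω' m * m.v 2 < W'
      rw [b1, h2]
      omega
    · show m.v 1 < W'
      omega
    · show (eAdd (eMul j.sim (.reg 2)) (.reg 1)).eval ω' m < W'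
      omega
    · show (Expr.rnd i j).sim.eval ω' m < W'
      omega

theorem test_sim (C : Ctx W W' L idx ω ω') {m μ : Mem} (h1 : m.v 1 = idx) (h2 : m.v 2 = L)
    (hI : Inst L idx m μ) (t : Test) (hmx : t.mx < W') (hok : t.ok W ω μ) :
    (t.sim.holds ω' m ↔ t.holds ω μ) ∧ t.sim.ok W' ω' m := by
  induction t with
  | lt e f =>
    obtain ⟨a1, a2⟩ := expr_sim C h1 h2 hI e (lt_of_le_of_lt (le_max_left _ _) hmx) hok.1
    obtain ⟨b1, b2⟩ := expr_sim C h1 h2 hI f (lt_of_le_of_lt (le_max_right _ _) hmx) hok.2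
    refine ⟨?_, a2, b2⟩
    show e.sim.eval ω' m < f.sim.eval ω' m ↔ e.eval ω μ < f.eval ω μ
    rw [a1, b1]
  | eq e f =>
    obtain ⟨a1, a2⟩ := expr_sim C h1 h2 hI e (lt_of_le_of_lt (le_max_left _ _) hmx) hok.1
    obtain ⟨b1, b2⟩ := expr_sim C h1 h2 hI f (lt_of_le_of_lt (le_max_right _ _) hmx) hok.2
    refine ⟨?_, a2, b2⟩
    show e.sim.eval ω' m = f.sim.eval ω' m ↔ e.eval ω μ = f.eval ω μ
    rw [a1, b1]
  | not s ih =>
    obtain ⟨a1, a2⟩ := ih hmx hok
    exact ⟨not_congr a1, a2⟩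
  | and s t ihs iht =>
    obtain ⟨a1, a2⟩ := ihs (lt_of_le_of_lt (le_max_left _ _) hmx) hok.1
    obtain ⟨b1, b2⟩ := iht (lt_of_le_of_lt (le_max_right _ _) hmx) hok.2
    exact ⟨and_congr a1 b1, a2, b2⟩

theorem SimFrame.refl (L idx : ℕ) (m : Mem) : SimFrame L idx m m :=
  ⟨rfl, fun _ _ => rfl, fun _ _ _ => rfl, fun _ _ _ _ _ _ => rfl⟩

theorem SimFrame.trans {m m' m'' : Mem} (h : SimFrame L idx m m') (h' : SimFrame L idx m' m'') :
    SimFrame L idx m m'' := by
  refine ⟨h'.1.trans h.1, fun r hr => (h'.2.1 r hr).trans (h.2.1 r hr), ?_, ?_⟩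
  · intro i hi x
    exact (h'.2.2.1 i hi x).trans (h.2.2.1 i hi x)
  · intro i hi hi' r a b
    exact (h'.2.2.2 i hi hi' r a b).trans (h.2.2.2 i hi hi' r a b)

theorem assign_inst {m μ : Mem} (hI : Inst L idx m μ) (x n : ℕ) :
    Inst L idx (m.setA 10 x idx n) (μ.setV x n) ∧ SimFrame L idx m (m.setA 10 x idx n) := by
  refine ⟨⟨?_, ?_⟩, rfl, ?_, ?_, ?_⟩
  · intro y
    rw [setA_a, setV_v]
    by_cases hy : y = x
    · simp [hy]
    · simp [hy, hI.1 y]
  · intro r i j
    rw [setA_a, if_neg (by omega)]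
    exact hI.2 r i j
  · intro r hr
    funext i j
    rw [setA_a, if_neg (by omega)]
  · intro i hi x'
    rw [setA_a, if_neg (by omega)]
  · intro i _ _ r a b
    rw [setA_a, if_neg (by omega)]

theorem mulL_inj {j j' i i' : ℕ} (hi : i < L) (hi' : i' < L) (h : j * L + i = j' * L + i') :
    j = j' ∧ i = i' := by
  have hL : 0 < L := by omega
  have e1 : (j * L + i) / L = j := by
    rw [add_comm, Nat.add_mul_div_right _ _ hL, Nat.div_eq_of_lt hi]; omega
  have e2 : (j' * L + i') / L = j' := by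
    rw [add_comm, Nat.add_mul_div_right _ _ hL, Nat.div_eq_of_lt hi']; omega
  have hj : j = j' := by rw [← e1, ← e2, h]
  subst hj
  exact ⟨rfl, by omega⟩

theorem store_inst {m μ : Mem} (hidx : idx < L) (hI : Inst L idx m μ) (r i j n : ℕ) :
    Inst L idx (m.setA (11 + r) i (j * L + idx) n) (μ.setA r i j n) ∧
      SimFrame L idx m (m.setA (11 + r) i (j * L + idx) n) := by
  refine ⟨⟨?_, ?_⟩, rfl, ?_, ?_, ?_⟩
  · intro y
    rw [setA_a, if_neg (by omega)]
    exact hI.1 y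
  · intro r' i' j'
    rw [setA_a, setA_a]
    by_cases h : r' = r ∧ i' = i ∧ j' = j
    · obtain ⟨rfl, rfl, rfl⟩ := h
      simp
    · rw [if_neg h, if_neg]
      · exact hI.2 r' i' j'
      · rintro ⟨h1, h2, h3⟩
        exact h ⟨by omega, h2, (mulL_inj hidx hidx h3).1⟩
  · intro r' hr
    funext i' j'
    rw [setA_a, if_neg (by omega)]
  · intro i' hi x'
    rw [setA_a, if_neg (by omega)]
  · intro i' hi' hne r' a b
    rw [setA_a, if_neg]
    rintro ⟨h1, h2, h3⟩
    exact hne (mulL_inj hi' hidx h3).2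

theorem run_sim (C : Ctx W W' L idx ω ω') {p : Prog} {μ μ' : Mem} {c : ℕ}
    (hr : Runs W ω p μ μ' c) : ∀ m : Mem, p.mx < W' → m.v 1 = idx → m.v 2 = L →
    Inst L idx m μ →
    Tr W' ω' p.sim m (10 * c) (fun m' => Inst L idx m' μ' ∧ SimFrame L idx m m') := by
  induction hr with
  | skip μ =>
    intro m _ _ _ hI
    exact (Tr.skip ⟨hI, SimFrame.refl _ _ _⟩).le (by omega)
  | assign x e μ hok =>
    intro m hmx h1 h2 hI
    obtain ⟨a1, a2⟩ := expr_sim C h1 h2 hI e (lt_of_le_of_lt (le_max_right _ _) hmx) hok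
    have hcost := sim_cost e
    have hx : x < W' := lt_of_le_of_lt (le_max_left _ _) hmx
    refine (Tr.store (r := 10) (i := .lit x) (j := .reg 1) (e := e.sim) ?_ ?_ a2 ?_).le ?_
    · exact hx
    · show m.v 1 < W'
      have := C.hidx
      have := C.hL
      omega
    · have e1 : (Expr.lit x).eval ω' m = x := rfl
      have e2 : (Expr.reg 1).eval ω' m = idx := h1
      rw [e1, e2, a1]
      exact assign_inst hI x _
    · simp only [Expr.cost]
      omega
  | store r i j e μ hi hj he =>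
    intro m hmx h1 h2 hI
    have hmx' : max (max i.mx j.mx) e.mx < W' := hmx
    obtain ⟨a1, a2⟩ := expr_sim C h1 h2 hI i (by omega) hi
    obtain ⟨b1, b2⟩ := expr_sim C h1 h2 hI j (by omega) hj
    obtain ⟨c1, c2⟩ := expr_sim C h1 h2 hI e (by omega) he
    have k1 := sim_cost e
    have k2 := sim_cost i
    have k3 := sim_cost j
    have hj' := eval_lt _ hj
    have hjl := C.mul_add hj'
    have h5 : (eAdd (eMul j.sim (.reg 2)) (.reg 1)).eval ω' m = j.eval ω μ * L + idx := by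
      show j.sim.eval ω' m * m.v 2 + m.v 1 = _
      rw [b1, h1, h2]
    have hidx := C.hidx
    have hL := C.hL
    refine (Tr.store (r := 11 + r) (i := i.sim) (j := eAdd (eMul j.sim (.reg 2)) (.reg 1))
      (e := e.sim) a2 ⟨⟨b2, ?_, ?_⟩, ?_, ?_⟩ c2 ?_).le ?_
    · show m.v 2 < W'
      omega
    · show j.sim.eval ω' m * m.v 2 < W'
      rw [b1, h2]
      omega
    · show m.v 1 < W'
      omega
    · show (eAdd (eMul j.sim (.reg 2)) (.reg 1)).eval ω' m < W'
      omega
    · rw [h5, a1, c1]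
      exact store_inst C.hidx hI r _ _ _
    · simp only [Expr.cost]
      omega
  | @seq p q μ μ' μ'' c d hp hq ihp ihq =>
    intro m hmx h1 h2 hI
    have hmx' : max p.mx q.mx < W' := hmx
    have ha := ihp m (by omega) h1 h2 hI
    refine (Tr.seq (T₁ := 10 * c) (T₂ := 10 * d) (ha.mono ?_)).le (by omega)
    rintro m' ⟨hI', hF'⟩
    have hb := ihq m' (by omega) (by rw [hF'.1]; exact h1) (by rw [hF'.1]; exact h2) hI'
    refine hb.mono ?_
    rintro m'' ⟨hI'', hF''⟩
    exact ⟨hI'', SimFrame.trans hF' hF''⟩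
  | @ite_true t p q μ μ' c ht hh hp ihp =>
    intro m hmx h1 h2 hI
    have hmx' : max t.mx (max p.mx q.mx) < W' := hmx
    obtain ⟨a1, a2⟩ := test_sim C h1 h2 hI t (by omega) ht
    obtain ⟨m', c', r1, r2, r3⟩ := ihp m (by omega) h1 h2 hI
    have hc := sim_tcost t
    exact ⟨m', _, .ite_true a2 (a1.2 hh) r1, by omega, r3⟩
  | @ite_false t p q μ μ' c ht hh hq ihq =>
    intro m hmx h1 h2 hI
    have hmx' : max t.mx (max p.mx q.mx) < W' := hmx
    obtain ⟨a1, a2⟩ := test_sim C h1 h2 hI t (by omega) ht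
    obtain ⟨m', c', r1, r2, r3⟩ := ihq m (by omega) h1 h2 hI
    have hc := sim_tcost t
    exact ⟨m', _, .ite_false a2 (fun h => hh (a1.1 h)) r1, by omega, r3⟩
  | @loop_done t p μ ht hh =>
    intro m hmx h1 h2 hI
    have hmx' : max t.mx p.mx < W' := hmx
    obtain ⟨a1, a2⟩ := test_sim C h1 h2 hI t (by omega) ht
    have hc := sim_tcost t
    exact ⟨m, _, .loop_done a2 (fun h => hh (a1.1 h)), by omega, hI, SimFrame.refl _ _ _⟩
  | @loop_step t p μ μ' μ'' c d ht hh hp hl ihp ihl =>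
    intro m hmx h1 h2 hI
    have hmx' : max t.mx p.mx < W' := hmx
    obtain ⟨a1, a2⟩ := test_sim C h1 h2 hI t (by omega) ht
    obtain ⟨m', c', r1, r2, hI', hF'⟩ := ihp m (by omega) h1 h2 hI
    obtain ⟨m'', c'', s1, s2, hI'', hF''⟩ :=
      ihl m' hmx (by rw [hF'.1]; exact h1) (by rw [hF'.1]; exact h2) hI'
    have hc := sim_tcost t
    exact ⟨m'', _, .loop_step a2 (a1.2 hh) r1 s1, by omega, hI'', SimFrame.trans hF' hF''⟩

/-- The simulation, with the assumption `2 < W'`. -/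
theorem sim' : ∀ (W W' L idx : ℕ) (ω ω' : ℕ → ℕ → ℕ) (p : Prog) (m μ μ' : Mem) (c : ℕ),
    idx < L → 2 < W' → L < W' → 2 * W ≤ W' → W * L + L ≤ W' → p.mx < W' →
    (∀ i < W, ∀ j < W, ω' (2 * i) (j * L + idx) = ω i j) →
    m.v 1 = idx → m.v 2 = L → Inst L idx m μ → Runs W ω p μ μ' c →
    Tr W' ω' p.sim m (10 * c) (fun m' => Inst L idx m' μ' ∧ SimFrame L idx m m') := by
  intro W W' L idx ω ω' p m μ μ' c h1 h2 h3 h4 h5 h6 h7 h8 h9 h10 hr
  exact run_sim ⟨h1, h2, h3, h4, h5, h7⟩ hr m h6 h8 h9 h10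

/-- PIECE SIM -/
theorem sim : P_SIM := sim'

end Pool.Agent.W2helper86.SM
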