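import Pool.Agent.W2helper86.SM.Pre2

set_option autoImplicit false

/-!
# Project SM, piece PRE
-/

namespace Pool.Agent.W2helper86.SM

open Pool.Agent.W2helper22.SM

theorem sum_blocks (f : ℕ → ℕ) (K : ℕ) : ∀ B : ℕ,
    ∑ blk ∈ Finset.range B, ∑ j ∈ Finset.range K, f (blk * K + j)
      = ∑ idx ∈ Finset.range (B * K), f idx := by
  intro B
  induction B with
  | zero => simp
  | succ B ih =>
    rw [Finset.sum_range_succ, ih, Nat.succ_mul, Finset.sum_range_add]

theorem cost_sum (B K L C D : ℕ) (hL : L = B * K) (t : ℕ → ℕ) :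
    ∑ blk ∈ Finset.range B, (C + ∑ j ∈ Finset.range K, (D + 10 * t (blk * K + j)))
      = B * C + L * D + 10 * ∑ idx ∈ Finset.range L, t idx := by
  subst hL
  rw [← sum_blocks, Finset.sum_add_distrib, Finset.sum_const, Finset.card_range, smul_eq_mul,
    Finset.mul_sum]
  have : ∀ blk, ∑ j ∈ Finset.range K, (D + 10 * t (blk * K + j))
      = K * D + 10 * ∑ j ∈ Finset.range K, t (blk * K + j) := by
    intro blk
    rw [Finset.sum_add_distrib, Finset.sum_const, Finset.card_range, smul_eq_mul, Finset.mul_sum]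
  simp only [this]
  rw [Finset.sum_add_distrib, Finset.sum_const, Finset.card_range, smul_eq_mul]
  ring

/-- PIECE PRE -/
theorem pre : P_PRE := by
  intro hlog _ P a b n W' ω' ω M μ t hbig hC hrun
  have N := num hbig
  have hn1 := N.n1
  have hn4 := N.nW
  have hLW := N.LW
  have hKL := N.KL
  have hBL := N.BL
  have hsS := N.sS
  have hSn := N.Sn
  have haW := N.aW
  have hbW := N.bW
  have halW := N.alW
  have hlg : Nat.log 2 n ≤ n := Nat.log_le_self 2 n
  have hlg' : a * Nat.log 2 n / b ≤ a * Nat.log 2 n := Nat.div_le_self _ _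
  unfold redPre
  refine (Tr.seq (T₁ := 100 * (n + 1)) (T₂ := 8 + (8 + (4 + (6 + (4 + (5 +
    ∑ blk ∈ Finset.range (cB a b n), (12 + ∑ j ∈ Finset.range (cK n),
        (22 + n * (12 + n * 35) + 10 * t (blk * cK n + j)))))))))
    ((hlog W' n ω' (init M) hn1 (by omega) rfl).mono ?_)).le ?_
  · rintro m₁ rfl
    have v0 : ((init M).setV 3 (Nat.log 2 n)).v 0 = n := rfl
    have v3 : ((init M).setV 3 (Nat.log 2 n)).v 3 = Nat.log 2 n := rfl
    refine Tr.seq (T₁ := 8) ((Tr.assign (x := 4)
      (e := eShl (.lit 1) (eDiv (eMul (.lit a) (.reg 3)) (.lit b)))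
      ⟨?_, ⟨⟨?_, ?_, ?_⟩, ?_, ?_⟩, ?_⟩ ?_).le (by simp [Expr.cost]))
    · show 1 < W'
      omega
    · exact haW
    · show Nat.log 2 n < W'
      omega
    · exact halW
    · exact hbW
    · show a * Nat.log 2 n / b < W'
      omega
    · show 1 <<< (a * Nat.log 2 n / b) < W'
      rw [Nat.shiftLeft_eq, one_mul]
      show noise a b n < W'
      omega
    have ev : (eShl (.lit 1) (eDiv (eMul (.lit a) (.reg 3)) (.lit b))).eval ω'
        ((init M).setV 3 (Nat.log 2 n)) = noise a b n := by
      show 1 <<< (a * Nat.log 2 n / b) = _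
      rw [Nat.shiftLeft_eq, one_mul]
      rfl
    rw [ev]
    refine Tr.seq (T₁ := 8) ((Tr.assign (x := 5)
      (e := eAdd (eMul (.lit 100) (eAdd (.reg 3) (.lit 1))) (.lit 1))
      ⟨⟨?_, ⟨?_, ?_, ?_⟩, ?_⟩, ?_, ?_⟩ ?_).le (by decide))
    · show 100 < W'
      omega
    · show Nat.log 2 n < W'
      omega
    · show 1 < W'
      omega
    · show Nat.log 2 n + 1 < W'
      omega
    · show 100 * (Nat.log 2 n + 1) < W'
      have : cK n = 100 * (Nat.log 2 n + 1) + 1 := rfl
      omega
    · show 1 < W'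
      omega
    · show cK n < W'
      omega
    have ev : ∀ m : Mem, m.v 3 = Nat.log 2 n →
        (eAdd (eMul (.lit 100) (eAdd (.reg 3) (.lit 1))) (.lit 1)).eval ω' m = cK n := by
      intro m hm
      show 100 * (m.v 3 + 1) + 1 = _
      rw [hm]
      rfl
    rw [ev _ rfl]
    refine Tr.seq (T₁ := 4) ((Tr.assign (x := 6)
      (e := eDiv (.reg 4) (.lit 64)) ⟨?_, ?_, ?_⟩ ?_).le (by decide))
    · show noise a b n < W'
      omega
    · show 64 < W'
      omega
    · show cs a b n < W'
      omega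
    have ev : ∀ m : Mem, m.v 4 = noise a b n → (eDiv (.reg 4) (.lit 64)).eval ω' m = cs a b n := by
      intro m hm
      show m.v 4 / 64 = _
      rw [hm]
      rfl
    rw [ev _ rfl]
    refine Tr.seq (T₁ := 6) ((Tr.assign (x := 7)
      (e := eAdd (eDiv (.reg 0) (.reg 6)) (.lit 1)) ⟨⟨?_, ?_, ?_⟩, ?_, ?_⟩ ?_).le (by decide))
    · show n < W'
      omega
    · show cs a b n < W'
      omega
    · show n / cs a b n < W'
      have := Nat.div_le_self n (cs a b n)
      omega
    · show 1 < W'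
      omega
    · show cB a b n < W'
      omega
    have ev : ∀ m : Mem, m.v 0 = n → m.v 6 = cs a b n →
        (eAdd (eDiv (.reg 0) (.reg 6)) (.lit 1)).eval ω' m = cB a b n := by
      intro m hm hm'
      show m.v 0 / m.v 6 + 1 = _
      rw [hm, hm']
      rfl
    rw [ev _ rfl rfl]
    refine Tr.seq (T₁ := 4) ((Tr.assign (x := 2)
      (e := eMul (.reg 7) (.reg 5)) ⟨?_, ?_, ?_⟩ ?_).le (by decide))
    · show cB a b n < W'
      omega
    · show cK n < W'
      omega
    · show cL a b n < W'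
      omega
    have ev : ∀ m : Mem, m.v 7 = cB a b n → m.v 5 = cK n →
        (eMul (.reg 7) (.reg 5)).eval ω' m = cL a b n := by
      intro m hm hm'
      show m.v 7 * m.v 5 = _
      rw [hm, hm']
      rfl
    rw [ev _ rfl rfl]
    refine (copies_tr N hC hrun _ ?_).mono ?_
    · refine ⟨⟨rfl, rfl, rfl, rfl, rfl, rfl⟩, rfl, fun idx _ h => absurd h (Nat.not_lt_zero _), ?_⟩
      intro idx _ _
      refine ⟨?_, ?_⟩
      · intro x
        show (init M).a 10 x idx = 0
        unfold init
        simp only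
        rw [dif_neg (by omega)]
      · intro r i j
        show (init M).a (11 + r) i (j * cL a b n + idx) = 0
        unfold init
        simp only
        rw [dif_neg (by omega)]
    · rintro m' ⟨⟨r0, r2, r4, r5, r6, r7⟩, -, hI, -⟩
      exact ⟨⟨r0, r2, r5, r6, r7⟩, fun idx h => hI idx h h⟩
  · rw [cost_sum (cB a b n) (cK n) (cL a b n) 12 (22 + n * (12 + n * 35)) rfl t]
    have e1 : cL a b n * (22 + n * (12 + n * 35))
        = 22 * cL a b n + 12 * (cL a b n * n) + 35 * (cL a b n * n * n) := by ring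
    have e2 : 1000 * (cL a b n + 1) * (n + 1) ^ 2 = 1000 * (cL a b n * n * n)
        + 2000 * (cL a b n * n) + 1000 * cL a b n + 1000 * (n * n) + 2000 * n + 1000 := by ring
    omega

end Pool.Agent.W2helper86.SM
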