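import Pool.Agent.W2helper86.SM.Sim

set_option autoImplicit false

/-!
# Project SM: common lemmas for the pieces PRE and QRY, and the piece PRE
-/

namespace Pool.Agent.W2helper86.SM

open Pool.Agent.W2helper22.SM

/-- the numerical facts -/
structure Num (P : Alg) (a b n W' : ℕ) : Prop where
  n1 : 1 ≤ n
  b1 : 0 < b
  nW : 4 * n + 200 < W'
  nL : (n + 1) * (cL a b n + 1) < W'
  Sn : noise a b n ≤ n
  S64 : 64 ≤ noise a b n
  bn : 2 ^ bits n ≤ 2 * n
  LW : cL a b n + 200 < W'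
  BL : cB a b n ≤ cL a b n
  KL : cK n ≤ cL a b n
  K1 : 1 ≤ cK n
  B1 : 1 ≤ cB a b n
  s1 : 1 ≤ cs a b n
  sS : cs a b n ≤ noise a b n
  aW : a < W'
  bW : b < W'
  alW : a * Nat.log 2 n < W'
  W2 : 2 * P.W n ≤ W'
  WL : P.W n * cL a b n + cL a b n ≤ W'
  preW : P.pre.mx < W'
  qryW : P.qry.mx < W'

theorem num {P : Alg} {a b n W' : ℕ} (h : BigW P a b n W') : Num P a b n W' := by
  obtain ⟨hn, hb, hab, hS, hbig⟩ := h
  obtain ⟨A, hA⟩ : ∃ A, A = P.W n + P.pre.mx + P.qry.mx + a + b + 200 := ⟨_, rfl⟩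
  rw [← hA] at hbig
  have hX : ∀ x y z, x ≤ A → y ≤ n + 1 → z ≤ cL a b n + 1 → 8 * (x * (y * z)) ≤ W' := by
    intro x y z hx hy hz
    have h1 : x * (y * z) ≤ A * ((n + 1) * (cL a b n + 1)) :=
      Nat.mul_le_mul hx (Nat.mul_le_mul hy hz)
    have h2 : 8 * A * (n + 1) * (cL a b n + 1) = 8 * (A * ((n + 1) * (cL a b n + 1))) := by ring
    omega
  have hlog : Nat.log 2 n ≤ n := Nat.log_le_self 2 n
  have hK1 : 1 ≤ cK n := by unfold cK; omega
  have hs1 : 1 ≤ cs a b n := by unfold cs; omega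
  have hB1 : 1 ≤ cB a b n := by unfold cB; exact Nat.le_add_left 1 _
  have hSn : noise a b n ≤ n := by
    unfold noise
    have h1 : a * Nat.log 2 n / b ≤ Nat.log 2 n := by
      apply Nat.div_le_of_le_mul
      exact Nat.mul_le_mul_right _ hab
    exact (Nat.pow_le_pow_right (by norm_num) h1).trans (Nat.pow_log_le_self 2 (by omega))
  have a1 : 8 * A ≤ W' := by simpa using hX A 1 1 le_rfl (by omega) (by omega)
  have a2 : 1600 * (n + 1) ≤ W' := by
    have := hX 200 (n + 1) 1 (by omega) le_rfl (by omega)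
    rw [mul_one] at this
    omega
  have a3 : 1600 * (cL a b n + 1) ≤ W' := by
    have := hX 200 1 (cL a b n + 1) (by omega) (by omega) le_rfl
    rw [one_mul] at this
    omega
  have a4 : 1600 * ((n + 1) * (cL a b n + 1)) ≤ W' := by
    have := hX 200 (n + 1) (cL a b n + 1) (by omega) le_rfl le_rfl
    omega
  have a5 : 8 * (a * (n + 1)) ≤ W' := by
    have := hX a (n + 1) 1 (by omega) le_rfl (by omega)
    rwa [mul_one] at this
  have a6 : 8 * (P.W n * cL a b n + P.W n + 200 * cL a b n + 200) ≤ W' := by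
    have := hX (P.W n + 200) 1 (cL a b n + 1) (by omega) (by omega) le_rfl
    rw [one_mul] at this
    have a8 : (P.W n + 200) * (cL a b n + 1)
        = P.W n * cL a b n + P.W n + 200 * cL a b n + 200 := by ring
    omega
  have a7 : a * Nat.log 2 n ≤ a * (n + 1) := Nat.mul_le_mul_left _ (by omega)
  have a9 : 1 ≤ (n + 1) * (cL a b n + 1) := Nat.mul_pos (by omega) (by omega)
  have hBL : cB a b n ≤ cL a b n := by
    unfold cL
    exact Nat.le_mul_of_pos_right _ hK1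
  have hKL : cK n ≤ cL a b n := by
    unfold cL
    exact Nat.le_mul_of_pos_left _ hB1
  refine ⟨hn, hb, by omega, by omega, hSn, hS, ?_, by omega, hBL, hKL, hK1, hB1, hs1, ?_,
    by omega, by omega, by omega, by omega, by omega, by omega, by omega⟩
  · unfold bits
    rw [pow_succ]
    have := Nat.pow_log_le_self 2 (x := n) (by omega)
    omega
  · unfold cs
    exact Nat.div_le_self _ _

/-- the arrays of number less than `10` and the other copies are unchanged -/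
def CF (L idx : ℕ) (m m' : Mem) : Prop :=
  (∀ r < 10, m'.a r = m.a r) ∧
    (∀ idx', idx' ≠ idx → ∀ x, m'.a 10 x idx' = m.a 10 x idx') ∧
    ∀ idx' < L, idx' ≠ idx → ∀ r i j,
      m'.a (11 + r) i (j * L + idx') = m.a (11 + r) i (j * L + idx')

theorem CF.refl (L idx : ℕ) (m : Mem) : CF L idx m m :=
  ⟨fun _ _ => rfl, fun _ _ _ => rfl, fun _ _ _ _ _ _ => rfl⟩

theorem CF.trans {L idx : ℕ} {m m' m'' : Mem} (h : CF L idx m m') (h' : CF L idx m' m'') :
    CF L idx m m'' := by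
  refine ⟨fun r hr => (h'.1 r hr).trans (h.1 r hr), ?_, ?_⟩
  · intro i hi x
    exact (h'.2.1 i hi x).trans (h.2.1 i hi x)
  · intro i hi hi' r a b
    exact (h'.2.2 i hi hi' r a b).trans (h.2.2 i hi hi' r a b)

theorem CF.of_sim {L idx : ℕ} {m m' : Mem} (h : SimFrame L idx m m') : CF L idx m m' := h.2

theorem CF.setV {L idx : ℕ} (m : Mem) (x n : ℕ) : CF L idx m (m.setV x n) :=
  ⟨fun _ _ => rfl, fun _ _ _ => rfl, fun _ _ _ _ _ _ => rfl⟩

theorem CF.inst {L idx idx' : ℕ} {m m' μ : Mem} (h : CF L idx m m') (hL : idx' < L)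
    (hne : idx' ≠ idx) (hI : Inst L idx' m μ) : Inst L idx' m' μ :=
  ⟨fun x => (h.2.1 idx' hne x).trans (hI.1 x),
    fun r i j => (h.2.2 idx' hL hne r i j).trans (hI.2 r i j)⟩

theorem Inst.setV {L idx : ℕ} {m μ : Mem} (h : Inst L idx m μ) (x n : ℕ) :
    Inst L idx (m.setV x n) μ := h

/-- writing to the array `r₀` of the copy `idx`; its present content is `D` -/
def WI (L idx r₀ : ℕ) (m₀ m : Mem) (D : ℕ → ℕ → ℕ) : Prop :=
  (∀ y, y ≠ 12 → y ≠ 13 → m.v y = m₀.v y) ∧ CF L idx m₀ m ∧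
    (∀ x, m.a 10 x idx = m₀.a 10 x idx) ∧
    (∀ i c, m.a (11 + r₀) i (c * L + idx) = D i c) ∧
    ∀ r, r ≠ r₀ → ∀ i c, m.a (11 + r) i (c * L + idx) = m₀.a (11 + r) i (c * L + idx)

theorem WI.setV {L idx r₀ : ℕ} {m₀ m : Mem} {D : ℕ → ℕ → ℕ} (h : WI L idx r₀ m₀ m D) {x : ℕ}
    (hx : x = 12 ∨ x = 13) (n : ℕ) : WI L idx r₀ m₀ (m.setV x n) D := by
  refine ⟨?_, h.2.1, h.2.2.1, h.2.2.2.1, h.2.2.2.2⟩
  intro y h1 h2
  rw [setV_v, if_neg (by omega)]
  exact h.1 y h1 h2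

theorem WI.congr {L idx r₀ : ℕ} {m₀ m : Mem} {D D' : ℕ → ℕ → ℕ} (h : WI L idx r₀ m₀ m D)
    (hD : ∀ i c, D i c = D' i c) : WI L idx r₀ m₀ m D' :=
  ⟨h.1, h.2.1, h.2.2.1, fun i c => (h.2.2.2.1 i c).trans (hD i c), h.2.2.2.2⟩

theorem WI.store {L idx r₀ : ℕ} {m₀ m : Mem} {D : ℕ → ℕ → ℕ} (h : WI L idx r₀ m₀ m D)
    (hidx : idx < L) (i c w : ℕ) :
    WI L idx r₀ m₀ (m.setA (11 + r₀) i (c * L + idx) w)
      (fun i' c' => if i' = i ∧ c' = c then w else D i' c') := by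
  have hs := (store_inst (μ := ⟨fun x => m.a 10 x idx, fun r i j => m.a (11 + r) i (j * L + idx)⟩)
    hidx ⟨fun _ => rfl, fun _ _ _ => rfl⟩ r₀ i c w)
  obtain ⟨hI, hF⟩ := hs
  refine ⟨h.1, h.2.1.trans (CF.of_sim hF), ?_, ?_, ?_⟩
  · intro x
    exact (hI.1 x).trans (h.2.2.1 x)
  · intro i' c'
    refine (hI.2 r₀ i' c').trans ?_
    rw [setA_a]
    show _ = if i' = i ∧ c' = c then w else D i' c'
    by_cases hc : i' = i ∧ c' = c
    · rw [if_pos ⟨rfl, hc⟩, if_pos hc]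
    · rw [if_neg (fun hh => hc hh.2), if_neg hc]
      exact h.2.2.2.1 i' c'
  · intro r hr i' c'
    refine (hI.2 r i' c').trans ?_
    rw [setA_a, if_neg (fun hh => hr hh.1)]
    exact h.2.2.2.2 r hr i' c'

/-- the address of the entry in column `c` of the copy `idx` is a word -/
theorem addr {P : Alg} {a b n W' : ℕ} (N : Num P a b n W') {c idx : ℕ} (hc : c ≤ n)
    (hidx : idx < cL a b n) : c * cL a b n + idx < W' := by
  have h1 : c * cL a b n ≤ n * cL a b n := Nat.mul_le_mul_right _ hc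
  have h2 : (n + 1) * (cL a b n + 1) = n * cL a b n + n + cL a b n + 1 := by ring
  have h3 := N.nL
  omega

theorem blk_lt {a b n blk j : ℕ} (hb : blk < cB a b n) (hj : j < cK n) :
    blk * cK n + j < cL a b n := by
  unfold cL
  have : (blk + 1) * cK n ≤ cB a b n * cK n := Nat.mul_le_mul_right _ hb
  have h2 : (blk + 1) * cK n = blk * cK n + cK n := by ring
  omega

/-- the matrix of the copy with the number `j` in its block, as a function of natural numbers -/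
def NE (a b : ℕ) {n : ℕ} (M : Fin n → Fin n → Bool) (ω' : ℕ → ℕ → ℕ) (j i c : ℕ) : ℕ :=
  (init (noisy a b M ω' j)).a 0 i c

theorem NE_of_le {a b : ℕ} {n : ℕ} (M : Fin n → Fin n → Bool) (ω' : ℕ → ℕ → ℕ) (j i c : ℕ)
    (h : n ≤ c) : NE a b M ω' j i c = 0 := by
  unfold NE init
  simp only
  rw [dif_neg (by omega)]

theorem NE_of_le' {a b : ℕ} {n : ℕ} (M : Fin n → Fin n → Bool) (ω' : ℕ → ℕ → ℕ) (j i c : ℕ)
    (h : n ≤ i) : NE a b M ω' j i c = 0 := by
  unfold NE init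
  simp only
  rw [dif_neg (by omega)]

/-- the registers during the preprocessing -/
def RG (a b n : ℕ) (m : Mem) : Prop :=
  m.v 0 = n ∧ m.v 2 = cL a b n ∧ m.v 4 = noise a b n ∧ m.v 5 = cK n ∧ m.v 6 = cs a b n ∧
    m.v 7 = cB a b n

theorem entry_eval {P : Alg} {a b n W' : ℕ} (N : Num P a b n W') {M : Fin n → Fin n → Bool}
    {ω' : ℕ → ℕ → ℕ} {m : Mem} {j i c : ℕ} (hω : ∀ i j, ω' i j < 2 ^ bits n)
    (hM : m.a 0 = (init M).a 0) (hR : RG a b n m)
    (h9 : m.v 9 = j) (h12 : m.v 12 = i) (h13 : m.v 13 = c) (hj : j < cK n) (hi : i < n)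
    (hc : c < n) :
    entryE.ok W' ω' m ∧ entryE.eval ω' m = NE a b M ω' j i c := by
  obtain ⟨r0, r2, r4, r5, r6, r7⟩ := hR
  have hMi : m.a 0 i c = (M ⟨i, hi⟩ ⟨c, hc⟩).toNat := by
    rw [hM]
    unfold init
    simp only
    rw [dif_pos ⟨trivial, hi, hc⟩]
  have hM1 : m.a 0 i c ≤ 1 := by
    rw [hMi]; exact Bool.toNat_le _
  have hnW := N.nW
  have hKL := N.KL
  have hLW := N.LW
  have hbn := N.bn
  have hSn := N.Sn
  have hS := N.S64
  set w := ω' (2 * i + 1) (c * cK n + j) with hw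
  have hwb : w < 2 ^ bits n := hω _ _
  have hmod : w % noise a b n < noise a b n := Nat.mod_lt _ (by omega)
  have hcK : c * cK n + j < W' := by
    have h1 : (c + 1) * cK n ≤ (n + 1) * (cL a b n + 1) :=
      Nat.mul_le_mul (by omega) (by omega)
    have h2 : (c + 1) * cK n = c * cK n + cK n := by ring
    have h3 := N.nL
    omega
  have e1 : (Expr.get 0 (.reg 12) (.reg 13)).eval ω' m = m.a 0 i c := by
    show m.a 0 (m.v 12) (m.v 13) = _
    rw [h12, h13]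
  have e2 : (eAdd (eMul (.lit 2) (.reg 12)) (.lit 1)).eval ω' m = 2 * i + 1 := by
    show 2 * m.v 12 + 1 = _
    rw [h12]
  have e3 : (eAdd (eMul (.reg 13) (.reg 5)) (.reg 9)).eval ω' m = c * cK n + j := by
    show m.v 13 * m.v 5 + m.v 9 = _
    rw [h13, r5, h9]
  have e4 : (Expr.rnd (eAdd (eMul (.lit 2) (.reg 12)) (.lit 1))
      (eAdd (eMul (.reg 13) (.reg 5)) (.reg 9))).eval ω' m = w := by
    show ω' ((eAdd (eMul (.lit 2) (.reg 12)) (.lit 1)).eval ω' m)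
      ((eAdd (eMul (.reg 13) (.reg 5)) (.reg 9)).eval ω' m) = _
    rw [e2, e3]
  have e5 : (eMod (.rnd (eAdd (eMul (.lit 2) (.reg 12)) (.lit 1))
      (eAdd (eMul (.reg 13) (.reg 5)) (.reg 9))) (.reg 4)).eval ω' m = w % noise a b n := by
    show (Expr.rnd (eAdd (eMul (.lit 2) (.reg 12)) (.lit 1))
      (eAdd (eMul (.reg 13) (.reg 5)) (.reg 9))).eval ω' m % m.v 4 = _
    rw [e4, r4]
  have e6 : (eSub (.lit 1) (eMod (.rnd (eAdd (eMul (.lit 2) (.reg 12)) (.lit 1))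
      (eAdd (eMul (.reg 13) (.reg 5)) (.reg 9))) (.reg 4))).eval ω' m
        = 1 - w % noise a b n := by
    show 1 - (eMod (.rnd (eAdd (eMul (.lit 2) (.reg 12)) (.lit 1))
      (eAdd (eMul (.reg 13) (.reg 5)) (.reg 9))) (.reg 4)).eval ω' m = _
    rw [e5]
  have e7 : (eAdd (.get 0 (.reg 12) (.reg 13))
    (eSub (.lit 1) (eMod (.rnd (eAdd (eMul (.lit 2) (.reg 12)) (.lit 1))
      (eAdd (eMul (.reg 13) (.reg 5)) (.reg 9))) (.reg 4)))).eval ω' m
        = m.a 0 i c + (1 - w % noise a b n) := by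
    show (Expr.get 0 (.reg 12) (.reg 13)).eval ω' m + (eSub (.lit 1) (eMod (.rnd (eAdd (eMul (.lit 2)
      (.reg 12)) (.lit 1)) (eAdd (eMul (.reg 13) (.reg 5)) (.reg 9))) (.reg 4))).eval ω' m = _
    rw [e1, e6]
  have e8 : entryE.eval ω' m = (m.a 0 i c + (1 - w % noise a b n)) % 2 := by
    show (eAdd (.get 0 (.reg 12) (.reg 13))
    (eSub (.lit 1) (eMod (.rnd (eAdd (eMul (.lit 2) (.reg 12)) (.lit 1))
      (eAdd (eMul (.reg 13) (.reg 5)) (.reg 9))) (.reg 4)))).eval ω' m % 2 = _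
    rw [e7]
  refine ⟨⟨⟨⟨?_, ?_, ?_⟩, ⟨?_, ⟨⟨⟨⟨?_, ?_, ?_⟩, ?_, ?_⟩, ⟨⟨?_, ?_, ?_⟩, ?_, ?_⟩, ?_⟩, ?_, ?_⟩, ?_⟩, ?_⟩, ?_, ?_⟩, ?_⟩
  · show m.v 12 < W'
    omega
  · show m.v 13 < W'
    omega
  · show m.a 0 (m.v 12) (m.v 13) < W'
    rw [h12, h13]
    omega
  · show 1 < W'
    omega
  · show 2 < W'
    omega
  · show m.v 12 < W'
    omega
  · show 2 * m.v 12 < W'
    omega
  · show 1 < W'
    omega
  · show 2 * m.v 12 + 1 < W'
    omega
  · show m.v 13 < W'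
    omega
  · show m.v 5 < W'
    omega
  · show m.v 13 * m.v 5 < W'
    rw [h13, r5]
    omega
  · show m.v 9 < W'
    omega
  · show m.v 13 * m.v 5 + m.v 9 < W'
    rw [h13, r5, h9]
    omega
  · show (Expr.rnd (eAdd (eMul (.lit 2) (.reg 12)) (.lit 1))
      (eAdd (eMul (.reg 13) (.reg 5)) (.reg 9))).eval ω' m < W'
    rw [e4]
    omega
  · show m.v 4 < W'
    omega
  · show (eMod (.rnd (eAdd (eMul (.lit 2) (.reg 12)) (.lit 1))
      (eAdd (eMul (.reg 13) (.reg 5)) (.reg 9))) (.reg 4)).eval ω' m < W'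
    rw [e5]
    omega
  · show (eSub (.lit 1) (eMod (.rnd (eAdd (eMul (.lit 2) (.reg 12)) (.lit 1))
      (eAdd (eMul (.reg 13) (.reg 5)) (.reg 9))) (.reg 4))).eval ω' m < W'
    rw [e6]
    omega
  · show (eAdd (.get 0 (.reg 12) (.reg 13))
      (eSub (.lit 1) (eMod (.rnd (eAdd (eMul (.lit 2) (.reg 12)) (.lit 1))
      (eAdd (eMul (.reg 13) (.reg 5)) (.reg 9))) (.reg 4)))).eval ω' m < W'
    rw [e7]
    omega
  · show 2 < W'
    omega
  · show entryE.eval ω' m < W'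
    rw [e8]
    omega
  · rw [e8, hMi]
    unfold NE init
    simp only
    rw [dif_pos ⟨trivial, hi, hc⟩]
    unfold noisy
    simp only
    rw [← hw]
    by_cases h0 : w % noise a b n = 0
    · rw [h0]
      cases M ⟨i, hi⟩ ⟨c, hc⟩ <;> simp
    · have h1 : 1 - w % noise a b n = 0 := by omega
      rw [h1]
      cases M ⟨i, hi⟩ ⟨c, hc⟩ <;> simp [h0]

end Pool.Agent.W2helper86.SM
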