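import Pool.Agent.W2helper86.SM.Pre

set_option autoImplicit false

/-!
# Project SM, piece PRE: the loops
-/

namespace Pool.Agent.W2helper86.SM

open Pool.Agent.W2helper22.SM

theorem RG.of_eq {a b n : ℕ} {m m' : Mem} (h : RG a b n m)
    (hv : ∀ y, y ≤ 7 → m'.v y = m.v y) : RG a b n m' := by
  obtain ⟨h0, h2, h4, h5, h6, h7⟩ := h
  exact ⟨(hv 0 (by omega)).trans h0, (hv 2 (by omega)).trans h2, (hv 4 (by omega)).trans h4,
    (hv 5 (by omega)).trans h5, (hv 6 (by omega)).trans h6, (hv 7 (by omega)).trans h7⟩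

/-- writing the matrix of a copy -/
theorem fill_tr {P : Alg} {a b n W' : ℕ} (N : Num P a b n W') {M : Fin n → Fin n → Bool}
    {ω' : ℕ → ℕ → ℕ} (hω : ∀ i j, ω' i j < 2 ^ bits n) {j idx : ℕ} (hj : j < cK n)
    (hidx : idx < cL a b n) (m₀ : Mem) (hM : m₀.a 0 = (init M).a 0) (hR : RG a b n m₀)
    (h9 : m₀.v 9 = j) (h1 : m₀.v 1 = idx)
    (hz : ∀ r i c, m₀.a (11 + r) i (c * cL a b n + idx) = 0) :
    Tr W' ω' (forR 12 (.reg 0) (forR 13 (.reg 0)
        (.store 11 (.reg 12) (eAdd (eMul (.reg 13) (.reg 2)) (.reg 1)) entryE))) m₀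
      (5 + n * (12 + n * 35)) (fun m' => WI (cL a b n) idx 0 m₀ m' (NE a b M ω' j)) := by
  set L := cL a b n with hL
  have hn4 := N.nW
  have hLW := N.LW
  have hbase : WI L idx 0 m₀ m₀ (fun _ _ => 0) :=
    ⟨fun _ _ _ => rfl, CF.refl _ _ _, fun _ => rfl, fun i c => hz 0 i c, fun _ _ _ _ => rfl⟩
  have hRm : ∀ {m : Mem} {D : ℕ → ℕ → ℕ}, WI L idx 0 m₀ m D → RG a b n m := by
    intro m D hm
    exact hR.of_eq (fun y hy => hm.1 y (by omega) (by omega))
  refine (Tr.forR (x := 12) (e := .reg 0)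
    (I := fun k m => WI L idx 0 m₀ m (fun i c => if i < k then NE a b M ω' j i c else 0))
    (T := fun _ => 5 + n * 35) n (by omega) ?_ ?_ ?_ ?_).le ?_
  · refine (hbase.setV (Or.inl rfl) 0).congr ?_
    intro i c
    simp
  · intro k hk m hm _
    have := (hRm hm).1
    exact ⟨show m.v 0 < W' by omega, this⟩
  · intro k hk m hm h12
    refine (Tr.forR (x := 13) (e := .reg 0)
      (I := fun l m' => WI L idx 0 m₀ m' (fun i c => if i < k ∨ (i = k ∧ c < l) then
        NE a b M ω' j i c else 0) ∧ m'.v 12 = k)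
      (T := fun _ => 28) n (by omega) ?_ ?_ ?_ ?_).le ?_
    · refine ⟨(hm.setV (Or.inr rfl) 0).congr ?_, ?_⟩
      · intro i c
        simp
      · rw [setV_v, if_neg (by omega)]
        exact h12
    · intro l hl m' hm' _
      have := (hRm hm'.1).1
      exact ⟨show m'.v 0 < W' by omega, this⟩
    · rintro l hl m' ⟨hm', h12'⟩ h13
      have hR' := hRm hm'
      have hM' : m'.a 0 = (init M).a 0 := (hm'.2.1.1 0 (by omega)).trans hM
      have h9' : m'.v 9 = j := (hm'.1 9 (by omega) (by omega)).trans h9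
      have h1' : m'.v 1 = idx := (hm'.1 1 (by omega) (by omega)).trans h1
      have h2' : m'.v 2 = L := hR'.2.1
      obtain ⟨ok, ev⟩ := entry_eval N hω hM' hR' h9' h12' h13 hj hk hl
      have had : l * L + idx < W' := addr N (c := l) (idx := idx) (by omega) hidx
      have hev : (eAdd (eMul (.reg 13) (.reg 2)) (.reg 1)).eval ω' m' = l * L + idx := by
        show m'.v 13 * m'.v 2 + m'.v 1 = _
        rw [h13, h2', h1']
      have hev12 : (Expr.reg 12).eval ω' m' = k := h12'
      refine (Tr.store (r := 11) (i := .reg 12) (j := eAdd (eMul (.reg 13) (.reg 2)) (.reg 1))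
        (e := entryE) ?_ ⟨⟨?_, ?_, ?_⟩, ?_, ?_⟩ ok ?_).le (by decide)
      · show m'.v 12 < W'
        omega
      · show m'.v 13 < W'
        omega
      · show m'.v 2 < W'
        omega
      · show m'.v 13 * m'.v 2 < W'
        rw [h13, h2']
        omega
      · show m'.v 1 < W'
        omega
      · show (eAdd (eMul (.reg 13) (.reg 2)) (.reg 1)).eval ω' m' < W'
        omega
      rw [hev, hev12, ev]
      refine ⟨h13, ?_, h12'⟩
      · refine ((hm'.store hidx k l (NE a b M ω' j k l)).setV (Or.inr rfl) (l + 1)).congr ?_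
        intro i c
        by_cases hic : i = k ∧ c = l
        · obtain ⟨rfl, rfl⟩ := hic
          simp
        · rw [if_neg hic]
          by_cases h2 : i < k ∨ (i = k ∧ c < l)
          · rw [if_pos h2, if_pos (by omega)]
          · rw [if_neg h2, if_neg (by omega)]
    · rintro m' ⟨hm', h12'⟩ _
      refine ⟨h12', (hm'.setV (Or.inl rfl) (k + 1)).congr ?_⟩
      intro i c
      by_cases hc : n ≤ c
      · rw [NE_of_le M ω' j i c hc]
        simp
      · by_cases h2 : i < k + 1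
        · rw [if_pos h2, if_pos (by omega)]
        · rw [if_neg h2, if_neg (by omega)]
    · simp only [Expr.cost, Finset.sum_const, Finset.card_range, smul_eq_mul]
      omega
  · intro m' hm' _
    refine hm'.congr ?_
    intro i c
    by_cases hi : i < n
    · rw [if_pos hi]
    · rw [if_neg hi, NE_of_le' M ω' j i c (by omega)]
  · simp only [Expr.cost, Finset.sum_const, Finset.card_range, smul_eq_mul]
    have : n * (1 + 6 + (5 + n * 35)) = n * (12 + n * 35) := by ring
    omega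

/-- set up one copy and run its preprocessing -/
theorem setP_tr {P : Alg} {a b n W' : ℕ} (N : Num P a b n W') {M : Fin n → Fin n → Bool}
    {ω' : ℕ → ℕ → ℕ} {ω : ℕ → ℕ → ℕ → ℕ} (hC : Coins P a b n ω' ω) {blk j : ℕ}
    (hb : blk < cB a b n) (hj : j < cK n) {μ : Mem} {t : ℕ}
    (hrun : Runs (P.W n) (ω (blk * cK n + j)) P.pre (init (noisy a b M ω' j)) μ t)
    (m : Mem) (hM : m.a 0 = (init M).a 0) (hR : RG a b n m)
    (h8 : m.v 8 = blk) (h9 : m.v 9 = j)
    (hz : Inst (cL a b n) (blk * cK n + j) m ⟨fun _ => 0, fun _ _ _ => 0⟩) :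
    Tr W' ω' (setP P) m (15 + n * (12 + n * 35) + 10 * t)
      (fun m' => (∀ y, y ≤ 9 → y ≠ 1 → m'.v y = m.v y) ∧
        CF (cL a b n) (blk * cK n + j) m m' ∧
        Inst (cL a b n) (blk * cK n + j) m' μ) := by
  set L := cL a b n with hL
  set idx := blk * cK n + j with hidxd
  have hidx : idx < L := blk_lt hb hj
  have hn4 := N.nW
  have hLW := N.LW
  have hKL := N.KL
  have hBL := N.BL
  have hbK : blk * cK n < W' := by omega
  refine (Tr.seq (T₁ := 6) (T₂ := 9 + n * (12 + n * 35) + 10 * t) ?_).le (by omega)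
  obtain ⟨r0, r2, r4, r5, r6, r7⟩ := id hR
  have hev : (eAdd (eMul (.reg 8) (.reg 5)) (.reg 9)).eval ω' m = idx := by
    show m.v 8 * m.v 5 + m.v 9 = _
    rw [h8, r5, h9]
  refine (Tr.assign (x := 1) (e := eAdd (eMul (.reg 8) (.reg 5)) (.reg 9))
    ⟨⟨?_, ?_, ?_⟩, ?_, ?_⟩ ?_).le (by decide)
  · show m.v 8 < W'
    omega
  · show m.v 5 < W'
    omega
  · show m.v 8 * m.v 5 < W'
    rw [h8, r5]
    omega
  · show m.v 9 < W'
    omega
  · show (eAdd (eMul (.reg 8) (.reg 5)) (.reg 9)).eval ω' m < W'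
    omega
  rw [hev]
  set m₁ := m.setV 1 idx with hm₁
  have hv1 : ∀ y, y ≠ 1 → m₁.v y = m.v y := by
    intro y hy
    rw [hm₁, setV_v, if_neg hy]
  have hR1 : RG a b n m₁ := ⟨by rw [hv1 0 (by omega)]; exact r0, by rw [hv1 2 (by omega)]; exact r2,
    by rw [hv1 4 (by omega)]; exact r4, by rw [hv1 5 (by omega)]; exact r5,
    by rw [hv1 6 (by omega)]; exact r6, by rw [hv1 7 (by omega)]; exact r7⟩
  have h11 : m₁.v 1 = idx := by rw [hm₁]; simp
  refine (Tr.seq (T₁ := 5 + n * (12 + n * 35)) (T₂ := 4 + 10 * t)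
    ((fill_tr N hC.1 hj hidx m₁ hM hR1 (by rw [hv1 9 (by omega)]; exact h9) h11
      (fun r i c => hz.2 r i c)).mono ?_)).le (by omega)
  intro m₂ hm₂
  have hv2 : ∀ y, y ≤ 9 → m₂.v y = m₁.v y := fun y hy => hm₂.1 y (by omega) (by omega)
  have hR2 : RG a b n m₂ := hR1.of_eq (fun y hy => hv2 y (by omega))
  refine Tr.seq (T₁ := 4) (T₂ := 10 * t) ?_
  have e1 : (Expr.lit 0).eval ω' m₂ = 0 := rfl
  have e2 : (Expr.reg 1).eval ω' m₂ = idx := (hv2 1 (by omega)).trans h11
  have e3 : (Expr.reg 0).eval ω' m₂ = n := hR2.1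
  refine (Tr.store (r := 10) (i := .lit 0) (j := .reg 1) (e := .reg 0) ?_ ?_ ?_ ?_).le (by decide)
  · show 0 < W'
    omega
  · show m₂.v 1 < W'
    have : m₂.v 1 = idx := e2
    omega
  · show m₂.v 0 < W'
    have : m₂.v 0 = n := e3
    omega
  rw [e1, e2, e3]
  have hI0 : Inst L idx m₂ ⟨fun _ => 0, fun r i c => if r = 0 then NE a b M ω' j i c else 0⟩ := by
    refine ⟨?_, ?_⟩
    · intro x
      exact (hm₂.2.2.1 x).trans (hz.1 x)
    · intro r i c
      by_cases hr : r = 0
      · subst hr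
        exact hm₂.2.2.2.1 i c
      · show _ = if r = 0 then NE a b M ω' j i c else 0
        rw [if_neg hr]
        exact (hm₂.2.2.2.2 r hr i c).trans (hz.2 r i c)
  obtain ⟨hI1, hF1⟩ := assign_inst hI0 0 n
  have hinit : (Mem.setV ⟨fun _ => 0, fun r i c => if r = 0 then NE a b M ω' j i c else 0⟩ 0 n)
      = init (noisy a b M ω' j) := by
    unfold Mem.setV init NE
    congr 1
    funext r i c
    by_cases hr : r = 0
    · subst hr
      simp [init]
    · simp [hr]
  rw [hinit] at hI1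
  have hsim := sim' (P.W n) W' L idx (ω idx) ω' P.pre (m₂.setA 10 0 idx n) _ _ t hidx
    (by omega) (by omega) N.W2 N.WL N.preW (fun i hi j hj => hC.2 idx hidx i hi j hj) e2 hR2.2.1
    hI1 hrun
  refine hsim.mono ?_
  rintro m₃ ⟨hI3, hF3⟩
  refine ⟨?_, ?_, hI3⟩
  · intro y hy hy1
    rw [hF3.1]
    show m₂.v y = m.v y
    rw [hv2 y hy, hv1 y hy1]
  · exact (((CF.setV m 1 idx).trans hm₂.2.1).trans (CF.of_sim hF1)).trans (CF.of_sim hF3)

/-- the invariant of the loops over the copies: `q` copies are ready -/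
def Rdy (a b : ℕ) {n : ℕ} (M : Fin n → Fin n → Bool) (μ : ℕ → Mem) (q : ℕ) (m : Mem) : Prop :=
  RG a b n m ∧ m.a 0 = (init M).a 0 ∧ (∀ idx < cL a b n, idx < q → Inst (cL a b n) idx m (μ idx)) ∧
    ∀ idx < cL a b n, q ≤ idx → Inst (cL a b n) idx m ⟨fun _ => 0, fun _ _ _ => 0⟩

theorem Rdy.setV {a b n : ℕ} {M : Fin n → Fin n → Bool} {μ : ℕ → Mem} {q : ℕ} {m : Mem}
    (h : Rdy a b M μ q m) {x : ℕ} (hx : 8 ≤ x) (k : ℕ) : Rdy a b M μ q (m.setV x k) := by
  refine ⟨h.1.of_eq ?_, h.2.1, h.2.2.1, h.2.2.2⟩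
  intro y hy
  rw [setV_v, if_neg (by omega)]

theorem copies_tr {P : Alg} {a b n W' : ℕ} (N : Num P a b n W') {M : Fin n → Fin n → Bool}
    {ω' : ℕ → ℕ → ℕ} {ω : ℕ → ℕ → ℕ → ℕ} (hC : Coins P a b n ω' ω) {μ : ℕ → Mem} {t : ℕ → ℕ}
    (hrun : ∀ blk < cB a b n, ∀ j < cK n,
      Runs (P.W n) (ω (blk * cK n + j)) P.pre (init (noisy a b M ω' j)) (μ (blk * cK n + j))
        (t (blk * cK n + j)))
    (m : Mem) (hm : Rdy a b M μ 0 m) :
    Tr W' ω' (forR 8 (.reg 7) (forR 9 (.reg 5) (setP P))) m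
      (5 + ∑ blk ∈ Finset.range (cB a b n), (12 + ∑ j ∈ Finset.range (cK n),
        (22 + n * (12 + n * 35) + 10 * t (blk * cK n + j))))
      (fun m' => Rdy a b M μ (cL a b n) m') := by
  have hn4 := N.nW
  have hLW := N.LW
  have hKL := N.KL
  have hBL := N.BL
  refine (Tr.forR (x := 8) (e := .reg 7)
    (I := fun k m => Rdy a b M μ (k * cK n) m)
    (T := fun blk => 5 + ∑ j ∈ Finset.range (cK n),
        (22 + n * (12 + n * 35) + 10 * t (blk * cK n + j))) (cB a b n) (by omega) ?_ ?_ ?_ ?_).le ?_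
  · rw [Nat.zero_mul]
    exact hm.setV (by omega) 0
  · intro k hk m hm _
    have : m.v 7 = cB a b n := hm.1.2.2.2.2.2
    exact ⟨show m.v 7 < W' by omega, this⟩
  · intro k hk m hm h8
    refine (Tr.forR (x := 9) (e := .reg 5)
      (I := fun l m => Rdy a b M μ (k * cK n + l) m ∧ m.v 8 = k)
      (T := fun j => 15 + n * (12 + n * 35) + 10 * t (k * cK n + j)) (cK n) (by omega)
      ?_ ?_ ?_ ?_).le ?_
    · refine ⟨hm.setV (by omega) 0, ?_⟩
      rw [setV_v, if_neg (by omega)]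
      exact h8
    · intro l hl m hm _
      have : m.v 5 = cK n := hm.1.1.2.2.2.1
      exact ⟨show m.v 5 < W' by omega, this⟩
    · rintro l hl m ⟨hm, h8⟩ h9
      have hidx := blk_lt (a := a) (b := b) hk hl
      refine (setP_tr N hC hk hl (hrun k hk l hl) m hm.2.1 hm.1 h8 h9
        (hm.2.2.2 _ hidx le_rfl)).mono ?_
      rintro m' ⟨hv, hCF, hI⟩
      have hR' : RG a b n m' := by
        obtain ⟨r0, r2, r4, r5, r6, r7⟩ := hm.1
        exact ⟨(hv 0 (by omega) (by omega)).trans r0, (hv 2 (by omega) (by omega)).trans r2,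
          (hv 4 (by omega) (by omega)).trans r4, (hv 5 (by omega) (by omega)).trans r5,
          (hv 6 (by omega) (by omega)).trans r6, (hv 7 (by omega) (by omega)).trans r7⟩
      refine ⟨(hv 9 (by omega) (by omega)).trans h9, ?_, ?_⟩
      · refine Rdy.setV ⟨hR', (hCF.1 0 (by omega)).trans hm.2.1, ?_, ?_⟩ (by omega) _
        · intro idx h1 h2
          by_cases he : idx = k * cK n + l
          · rw [he]
            exact hI
          · exact hCF.inst h1 he (hm.2.2.1 idx h1 (by omega))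
        · intro idx h1 h2
          exact hCF.inst h1 (by omega) (hm.2.2.2 idx h1 (by omega))
      · rw [setV_v, if_neg (by omega)]
        exact (hv 8 (by omega) (by omega)).trans h8
    · rintro m' ⟨hm', h8'⟩ _
      refine ⟨h8', ?_⟩
      have : (k + 1) * cK n = k * cK n + cK n := by ring
      rw [this]
      exact hm'.setV (by omega) _
    · have : ∀ j, (Expr.reg 5).cost + 6 + (15 + n * (12 + n * 35) + 10 * t (k * cK n + j))
          = 22 + n * (12 + n * 35) + 10 * t (k * cK n + j) := by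
        intro j
        simp only [Expr.cost]
        omega
      simp only [this]
      simp only [Expr.cost]
      omega
  · intro m' hm' _
    exact hm'
  · have : ∀ k, (Expr.reg 7).cost + 6 + (5 + ∑ j ∈ Finset.range (cK n),
        (22 + n * (12 + n * 35) + 10 * t (k * cK n + j)))
          = 12 + ∑ j ∈ Finset.range (cK n), (22 + n * (12 + n * 35) + 10 * t (k * cK n + j)) := by
      intro k
      simp only [Expr.cost]
      omega
    simp only [this]
    simp only [Expr.cost]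
    omega

end Pool.Agent.W2helper86.SM
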